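import Pool.Agent.Mg.F436a94p.Gd8c730
import Pool.Agent.Mg.F436a94p.G4fea99
import Pool.Agent.Mg.F436a94p.Gb8cf27
import Pool.Agent.Mg.F436a94p.Ga6a9a6

set_option autoImplicit false

namespace Pool.Agent.Results.MP_436a94_nt.Uniform

open Pool.Agent.MP_436a94_nt

/-- For almost all integers `n`, both formulas hold for all small bases outside a bounded number
of square classes. -/
theorem result : ∃ (C : ℕ) (c : ℝ), 0 < c ∧ ∀ B : ℕ, ∃ K : ℝ, ∀ X : ℕ, 2 ≤ X →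
    ({n : ℕ | n ≤ X ∧ ¬ ∃ D : Finset ℤ, D.card ≤ C ∧ (0 : ℤ) ∉ D ∧
      ∀ a : ℤ, 1 < |a| → ((|a| : ℤ) : ℝ) ≤ (n : ℝ) ^ c → (∀ d ∈ D, ¬ IsSquare (d * a)) →
        IsLeast {p : ℕ | p.Prime ∧ n < p ∧ orderOf (a : ZMod p) = p - 1} (f a n) ∧
        IsLeast {p : ℕ | p.Prime ∧ 2 * n < p ∧ Sep (a ^ 2) ((p - 1) / 2) p}
          (f (a ^ 2) n)}.ncard : ℝ) ≤ K * X / Real.log X ^ B :=
  E.ae_main (E.s_M (E.s_W A.ae_all A.s_Fej) (E.s_Cnt E.s_Rec E.s_Pat E.s_Up))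

end Pool.Agent.Results.MP_436a94_nt.Uniform
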